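import Pool.Agent.Lib.P2baC.PolyT

/-!
# Surjective homomorphisms to bipartite graphs with tall pendant trees: definitions (MP_2ba8ab_lc)

The target graph `H` on `V` is described by a height function `ht` and a parent function `par`:
the vertices of height 0 form the core, every vertex of positive height has the parent of height
one less as its only neighbour apart from its children, so the vertices of positive height form
pendant trees.
-/

set_option autoImplicit false

namespace Pool.Agent.Lib.P2baR

open Pool.Agent.Lib.P2ba8ab

variable {V : Type}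

/-- The vertices of positive height form pendant trees with parent function `par`, and every
vertex of the core (height 0) has two neighbours in the core. -/
structure Trees (H : V → V → Prop) (par : V → V) (ht : V → ℕ) : Prop where
  symm : ∀ a b, H a b → H b a
  ht_par : ∀ a, 0 < ht a → ht a = ht (par a) + 1
  adj_par : ∀ a, 0 < ht a → H a (par a)
  tree : ∀ a b, H a b → 0 < ht a → b = par a ∨ (0 < ht b ∧ a = par b)
  deg : ∀ a, ht a = 0 → ∃ b c, b ≠ c ∧ ht b = 0 ∧ ht c = 0 ∧ H a b ∧ H a c

/-- the vertex of the core below `a` -/
def root (par : V → V) (ht : V → ℕ) (a : V) : V := par^[ht a] a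

/-- adjacency in the core -/
def HC (H : V → V → Prop) (ht : V → ℕ) (a b : V) : Prop := ht a = 0 ∧ ht b = 0 ∧ H a b

/-- the data of a target: a bipartition `cl`, a vertex `v0` of the core which is joined to every
vertex `a` of the core by a walk of length `len (cl a) ≤ e` in the core, and above every vertex of
the core a vertex of height more than `e` -/
structure Dat (H : V → V → Prop) (par : V → V) (ht : V → ℕ) (cl : V → Bool) (v0 : V)
    (len : Bool → ℕ) (e : ℕ) : Prop where
  trees : Trees H par ht
  cls : ∀ a b, H a b → cl a ≠ cl b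
  v0c : ht v0 = 0
  len1 : ∀ c, 1 ≤ len c
  lene : ∀ c, len c ≤ e
  walk : ∀ a, ht a = 0 → Walk (HC H ht) (len (cl a)) a v0
  tall : ∀ v, ht v = 0 → ∃ x, root par ht x = v ∧ e < ht x

/-- the vertices of the core -/
abbrev Core (ht : V → ℕ) : Type := {v : V // ht v = 0}

/-- the vertices of the instance: the tree vertices of `H` and for every vertex `p` of the given
graph the vertex `(p, 0)` and the vertices `(p, k)` of its path -/
abbrev W (ht : V → ℕ) (P : Type) (e : ℕ) : Type := {x : V // 0 < ht x} ⊕ (P × Fin e)

/-- The (directed) edges of the instance. The given graph has the vertices `P`, the edges `E`, the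
bipartition `clP` and contains the vertices `ι v`, `v` in the core, as a copy of the core. The
trees of `H` are attached to the vertices `ι v`, and every vertex `p` is joined to `ι v0` by a path
of length `len (clP p)`; superfluous vertices `(p, k)` are attached to `ι v0`. -/
def Rel (H : V → V → Prop) (par : V → V) (ht : V → ℕ) (len : Bool → ℕ) {P : Type} {e : ℕ}
    (E : P → P → Prop) (clP : P → Bool) (ι : Core ht → P) (p0 : P) : W ht P e → W ht P e → Prop
  | Sum.inl x, Sum.inl y => H x.1 y.1
  | Sum.inl x, Sum.inr (p, k) => k.1 = 0 ∧ ∃ v : Core ht, ι v = p ∧ v.1 = par x.1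
  | Sum.inr (p, k), Sum.inr (q, l) =>
      (k.1 = 0 ∧ l.1 = 0 ∧ (E p q ∨ ∃ v w : Core ht, ι v = p ∧ ι w = q ∧ H v.1 w.1)) ∨
      (q = p ∧ l.1 = k.1 + 1 ∧ l.1 < len (clP p)) ∨
      (l.1 = 0 ∧ q = p0 ∧ len (clP p) ≤ k.1 + 1)
  | Sum.inr _, Sum.inl _ => False

/-- the instance -/
def gr (H : V → V → Prop) (par : V → V) (ht : V → ℕ) (len : Bool → ℕ) {P : Type} (e : ℕ)
    (E : P → P → Prop) (clP : P → Bool) (ι : Core ht → P) (p0 : P) : SimpleGraph (W ht P e) :=
  SimpleGraph.fromRel (Rel H par ht len E clP ι p0)

/-- `z` is a vertex of positive height on the way from `x` down to the core -/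
def Anc (par : V → V) (ht : V → ℕ) (z x : V) : Prop := ∃ i, i < ht x ∧ par^[i] x = z

open Classical in
/-- the vertices of positive height below the elements of `Y` -/
noncomputable def St [Fintype V] (par : V → V) (ht : V → ℕ) (Y : Finset V) : Finset V :=
  Finset.univ.filter (fun z => ∃ x ∈ Y, Anc par ht z x)

/-- adjacency inside a set of vertices -/
def In {X : Type} (G : X → X → Prop) (B : Set X) (a b : X) : Prop := a ∈ B ∧ b ∈ B ∧ G a b

end Pool.Agent.Lib.P2baR
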