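import Pool.Agent.Lib.P2baR.Img

/-!
# Module P2baR.SoundR: a surjective homomorphism gives a retraction

PROOF. Write a v = f (ι v, 0) for v in the core; a is injective (`inj_core`), and H v w implies
H (a v) (a w) for core vertices (edges of the second kind in `Rel`; (ι v, 0) ≠ (ι w, 0) as H is
irreflexive by D.cls and ι is injective).
STEP 1: ht (a v) = 0 for all v. Otherwise take v with ht (a v) maximal, > 0. v has two different
neighbours b, c in the core (`Trees.deg`), a b ≠ a c are neighbours of a v of height ≤ ht (a v),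
contradicting `nbrs`.
STEP 2: so a is an injective map of the finite type `Core ht` to itself, a permutation α
(`Equiv.ofBijective`, `Finite.injective_iff_bijective`) which preserves H. α^N = 1 for some N ≥ 1
(`isOfFinOrder_of_finite` / `orderOf`), so α⁻¹ = α^(N-1) preserves H too.
STEP 3: fold: ρ x = root x if ht x is even, and a neighbour nb (root x) of root x in the core if
ht x is odd (nb by choice from `Trees.deg`). ρ maps V to the core, is the identity on the core and
preserves H: for H x y with both in the core clear; otherwise one of them, say x, has positive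
height and y = par x or x = par y (`tree`): the roots agree (`root_par`), the heights differ by one,
so the values are root and nb (root).
r p = α⁻¹ (ρ (f (p, 0))). r (ι v) = α⁻¹ (ρ (a v)) = α⁻¹ (a v) = v. If E p q, then (p, 0) and (q, 0)
are adjacent (p ≠ q by `hE`), so H (f (p, 0)) (f (q, 0)), and ρ, α⁻¹ preserve H.
STEP 4 (classes): for every p there is a walk of length len (clP p) in the instance from (p, 0) to
(ι v0, 0) (as in Conn: (p,0), (p,1), ..., (p, len-1), (ι v0, 0)), so a walk of this length in H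
between the images; by D.cls the parity of its length decides whether the classes of the ends agree:
cl (f (p,0)) = cl (f (ι v0, 0)) iff len (clP p) is even. If E p q then
cl (f (p, 0)) ≠ cl (f (q, 0)), so len (clP p) and len (clP q) have different parity and
clP p ≠ clP q.
-/

set_option autoImplicit false
set_option linter.unusedSectionVars false

namespace Pool.Agent.Lib.P2baR

open Pool.Agent.Lib.P2ba8ab

namespace SoundRAux

theorem walk_cl {V : Type} {H : V → V → Prop} {cl : V → Bool} (hc : ∀ a b, H a b → cl a ≠ cl b)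
    {n : ℕ} {a b : V} (h : Walk H n a b) : cl a = cl b ↔ Even n := by
  induction n generalizing a with
  | zero =>
    obtain rfl : a = b := h
    simp
  | succ n ih =>
    obtain ⟨w, hw, hwb⟩ := h
    have h1 := ih hwb
    have h2 := hc a w hw
    rw [Nat.even_add_one, ← h1]
    revert h2
    cases cl a <;> cases cl b <;> cases cl w <;> simp

theorem inv_hom {C : Type} [Finite C] (R : C → C → Prop) (α : C ≃ C)
    (h : ∀ v w, R v w → R (α v) (α w)) (v w : C) (hvw : R v w) : R (α.symm v) (α.symm w) := by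
  let F : {p : C × C // R p.1 p.2} → {p : C × C // R p.1 p.2} :=
    fun p => ⟨(α p.1.1, α p.1.2), h _ _ p.2⟩
  have hF : Function.Injective F := by
    rintro ⟨⟨a, b⟩, hab⟩ ⟨⟨c, d⟩, hcd⟩ heq
    have h1 := congrArg Subtype.val heq
    have h2 := Prod.ext_iff.1 h1
    have h3 : a = c := α.injective h2.1
    have h4 : b = d := α.injective h2.2
    subst h3 h4
    rfl
  obtain ⟨⟨⟨a, b⟩, hab⟩, heq⟩ := Finite.surjective_of_injective hF ⟨(v, w), hvw⟩
  have h1 := congrArg Subtype.val heq
  have h2 := Prod.ext_iff.1 h1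
  have h3 : α a = v := h2.1
  have h4 : α b = w := h2.2
  rw [← h3, ← h4, Equiv.symm_apply_apply, Equiv.symm_apply_apply]
  exact hab

/-- the folding of the trees -/
theorem exists_fold {V : Type} {H : V → V → Prop} {par : V → V} {ht : V → ℕ}
    (T : Trees H par ht) : ∃ ρ : V → V, (∀ x, ht (ρ x) = 0) ∧ (∀ x, ht x = 0 → ρ x = x) ∧
      ∀ x y, H x y → H (ρ x) (ρ y) := by
  classical
  have hex : ∀ v, ∃ b, ht v = 0 → ht b = 0 ∧ H v b := by
    intro v
    by_cases hv : ht v = 0
    · obtain ⟨b, c, -, hb, -, hvb, -⟩ := T.deg v hv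
      exact ⟨b, fun _ => ⟨hb, hvb⟩⟩
    · exact ⟨v, fun h => absurd h hv⟩
  choose nb hnb using hex
  have key : ∀ y, 0 < ht y →
      H (if Even (ht y) then root par ht y else nb (root par ht y))
        (if Even (ht (par y)) then root par ht (par y) else nb (root par ht (par y))) := by
    intro y hy
    have h1 := T.ht_par y hy
    have h2 := root_par T y hy
    have h3 := hnb _ (ht_root T y)
    rw [h2]
    by_cases he : Even (ht y)
    · have h4 : ¬ Even (ht (par y)) := by
        intro h5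
        rw [h1, Nat.even_add_one] at he
        exact he h5
      rw [if_pos he, if_neg h4]
      exact h3.2
    · have h4 : Even (ht (par y)) := by
        rw [h1, Nat.even_add_one, not_not] at he
        exact he
      rw [if_neg he, if_pos h4]
      exact T.symm _ _ h3.2
  refine ⟨fun x => if Even (ht x) then root par ht x else nb (root par ht x), ?_, ?_, ?_⟩
  · intro x
    show ht (if Even (ht x) then root par ht x else nb (root par ht x)) = 0
    split_ifs
    · exact ht_root T x
    · exact (hnb _ (ht_root T x)).1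
  · intro x hx
    show (if Even (ht x) then root par ht x else nb (root par ht x)) = x
    rw [if_pos (by rw [hx]; exact Even.zero), root_core x hx]
  · intro x y hxy
    show H (if Even (ht x) then root par ht x else nb (root par ht x))
        (if Even (ht y) then root par ht y else nb (root par ht y))
    rcases Nat.eq_zero_or_pos (ht x) with hx | hx
    · rcases Nat.eq_zero_or_pos (ht y) with hy | hy
      · rw [if_pos (by rw [hx]; exact Even.zero), if_pos (by rw [hy]; exact Even.zero),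
          root_core x hx, root_core y hy]
        exact hxy
      · rcases T.tree y x (T.symm _ _ hxy) hy with h | ⟨h, -⟩
        · rw [h]
          exact T.symm _ _ (key y hy)
        · omega
    · rcases T.tree x y hxy hx with h | ⟨h, h'⟩
      · rw [h]
        exact key x hx
      · rw [h']
        exact T.symm _ _ (key y h)

end SoundRAux

open SoundRAux in
theorem sound {V : Type} [Fintype V] {H : V → V → Prop} {par : V → V} {ht : V → ℕ}
    {cl : V → Bool} {v0 : V} {len : Bool → ℕ} {e : ℕ} {P : Type} [Fintype P]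
    (D : Dat H par ht cl v0 len e) (E : P → P → Prop) (hE : ∀ p, ¬ E p p)
    (clP : P → Bool) (ι : Core ht → P) (hι : Function.Injective ι) (hcl : ∀ v, clP (ι v) = cl v.1)
    (h : SurjHom (gr H par ht len e E clP ι (ι ⟨v0, D.v0c⟩)) H) :
    (∀ p q, E p q → clP p ≠ clP q) ∧
    ∃ r : P → V, (∀ p, ht (r p) = 0) ∧ (∀ p q, E p q → H (r p) (r q)) ∧ ∀ v, r (ι v) = v.1 := by
  classical
  obtain ⟨f, hf, hs⟩ := h
  have he : 0 < e := lt_of_lt_of_le (Nat.lt_of_succ_le (D.len1 true)) (D.lene true)
  have hirr : ∀ v, ¬ H v v := fun v hv => D.cls v v hv rfl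
  have hinj : ∀ v w : Core ht, f (Sum.inr (ι v, ⟨0, he⟩)) = f (Sum.inr (ι w, ⟨0, he⟩)) → v = w :=
    fun v w => inj_core D E clP ι hι hcl he f hf hs v w
  have hadj1 : ∀ v w : Core ht, H v.1 w.1 →
      (gr H par ht len e E clP ι (ι ⟨v0, D.v0c⟩)).Adj (Sum.inr (ι v, ⟨0, he⟩))
        (Sum.inr (ι w, ⟨0, he⟩)) := by
    intro v w hvw
    unfold gr
    rw [SimpleGraph.fromRel_adj]
    refine ⟨?_, Or.inl (Or.inl ⟨rfl, rfl, Or.inr ⟨v, w, rfl, rfl, hvw⟩⟩)⟩
    intro h1
    have h2 := (Prod.ext_iff.1 (Sum.inr.inj h1)).1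
    have h3 : v = w := hι h2
    subst h3
    exact hirr _ hvw
  have hadj2 : ∀ p q, E p q →
      (gr H par ht len e E clP ι (ι ⟨v0, D.v0c⟩)).Adj (Sum.inr (p, ⟨0, he⟩))
        (Sum.inr (q, ⟨0, he⟩)) := by
    intro p q hpq
    unfold gr
    rw [SimpleGraph.fromRel_adj]
    refine ⟨?_, Or.inl (Or.inl ⟨rfl, rfl, Or.inl hpq⟩)⟩
    intro h1
    have h2 : p = q := (Prod.ext_iff.1 (Sum.inr.inj h1)).1
    subst h2
    exact hE _ hpq
  have hwalk : ∀ p : P, Walk (gr H par ht len e E clP ι (ι ⟨v0, D.v0c⟩)).Adj (len (clP p))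
      (Sum.inr (p, ⟨0, he⟩)) (Sum.inr (ι ⟨v0, D.v0c⟩, ⟨0, he⟩)) := by
    intro p
    have h1 : ∀ i, ∀ hi : i < len (clP p),
        Walk (gr H par ht len e E clP ι (ι ⟨v0, D.v0c⟩)).Adj i
        (Sum.inr (p, ⟨0, he⟩)) (Sum.inr (p, ⟨i, lt_of_lt_of_le hi (D.lene _)⟩)) := by
      intro i
      induction i with
      | zero => intro hi; exact rfl
      | succ i ih =>
        intro hi
        refine (ih (by omega)).snoc ?_
        unfold gr
        rw [SimpleGraph.fromRel_adj]
        refine ⟨?_, Or.inl (Or.inr (Or.inl ⟨rfl, rfl, hi⟩))⟩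
        intro h1
        have h2 := (Prod.ext_iff.1 (Sum.inr.inj h1)).2
        have h3 := congrArg Fin.val h2
        simp at h3
    have hl := D.len1 (clP p)
    obtain ⟨m, hm⟩ : ∃ m, len (clP p) = m + 1 := ⟨len (clP p) - 1, by omega⟩
    have h2 := h1 m (by omega)
    have h3 : Walk (gr H par ht len e E clP ι (ι ⟨v0, D.v0c⟩)).Adj (m + 1)
        (Sum.inr (p, ⟨0, he⟩)) (Sum.inr (ι ⟨v0, D.v0c⟩, ⟨0, he⟩)) := by
      refine h2.snoc ?_
      unfold gr
      rw [SimpleGraph.fromRel_adj]
      refine ⟨?_, Or.inl (Or.inr (Or.inr ⟨rfl, rfl, le_of_eq hm⟩))⟩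
      intro h4
      have h5 := Prod.ext_iff.1 (Sum.inr.inj h4)
      have h6 : p = ι ⟨v0, D.v0c⟩ := h5.1
      have h7 : m = 0 := congrArg Fin.val h5.2
      have h8 := D.walk v0 D.v0c
      rw [← hcl ⟨v0, D.v0c⟩, ← h6, hm, h7] at h8
      obtain ⟨w, hw, hw'⟩ := h8
      have hw2 : w = v0 := hw'
      rw [hw2] at hw
      exact hirr _ hw.2.2
    rw [hm]
    exact h3
  have hht : ∀ v : Core ht, ht (f (Sum.inr (ι v, ⟨0, he⟩))) = 0 := by
    by_contra hcon
    obtain ⟨v1, hv1⟩ := not_forall.1 hcon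
    obtain ⟨v, -, hv⟩ := Finset.exists_max_image (Finset.univ : Finset (Core ht))
      (fun v => ht (f (Sum.inr (ι v, ⟨0, he⟩)))) ⟨v1, Finset.mem_univ _⟩
    have hpos : 0 < ht (f (Sum.inr (ι v, ⟨0, he⟩))) :=
      lt_of_lt_of_le (Nat.pos_of_ne_zero hv1) (hv v1 (Finset.mem_univ _))
    obtain ⟨b, c, hbc, hb, hc, hvb, hvc⟩ := D.trees.deg v.1 v.2
    have h1 := hf _ _ (hadj1 v ⟨b, hb⟩ hvb)
    have h2 := hf _ _ (hadj1 v ⟨c, hc⟩ hvc)
    have h3 := nbrs D.trees hpos h1 h2 (hv ⟨b, hb⟩ (Finset.mem_univ _))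
      (hv ⟨c, hc⟩ (Finset.mem_univ _))
    have h4 := hinj ⟨b, hb⟩ ⟨c, hc⟩ h3
    exact hbc (congrArg Subtype.val h4)
  let α0 : Core ht → Core ht := fun v => ⟨f (Sum.inr (ι v, ⟨0, he⟩)), hht v⟩
  have hα0 : Function.Injective α0 := fun v w hvw => hinj v w (congrArg Subtype.val hvw)
  let α : Core ht ≃ Core ht := Equiv.ofBijective α0 (Finite.injective_iff_bijective.1 hα0)
  have hα : ∀ v, α v = α0 v := fun v => rfl
  have hαH : ∀ v w : Core ht, H v.1 w.1 → H (α v).1 (α w).1 :=
    fun v w hvw => hf _ _ (hadj1 v w hvw)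
  have hαs := inv_hom (fun v w : Core ht => H v.1 w.1) α hαH
  obtain ⟨ρ, hρ0, hρ1, hρ2⟩ := exists_fold D.trees
  refine ⟨?_, fun p => (α.symm ⟨ρ (f (Sum.inr (p, ⟨0, he⟩))), hρ0 _⟩).1, ?_, ?_, ?_⟩
  · intro p q hpq heq
    have h1 := (hwalk p).map hf
    have h2 := (hwalk q).map hf
    have h3 := walk_cl D.cls h1
    have h4 := walk_cl D.cls h2
    rw [← heq, ← h3] at h4
    have h5 := D.cls _ _ (hf _ _ (hadj2 p q hpq))
    revert h4 h5
    cases cl (f (Sum.inr (p, ⟨0, he⟩))) <;> cases cl (f (Sum.inr (q, ⟨0, he⟩))) <;>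
      cases cl (f (Sum.inr (ι ⟨v0, D.v0c⟩, ⟨0, he⟩))) <;> simp
  · intro p
    exact (α.symm _).2
  · intro p q hpq
    exact hαs _ _ (hρ2 _ _ (hf _ _ (hadj2 p q hpq)))
  · intro v
    have h1 : (⟨ρ (f (Sum.inr (ι v, ⟨0, he⟩))), hρ0 _⟩ : Core ht) = α v := by
      apply Subtype.ext
      exact hρ1 _ (hht v)
    show (α.symm ⟨ρ (f (Sum.inr (ι v, ⟨0, he⟩))), hρ0 _⟩).1 = v.1
    rw [h1, Equiv.symm_apply_apply]

end Pool.Agent.Lib.P2baR
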