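import Pool.Agent.Lib.P2baR.TableR
import Pool.Agent.Lib.P2baR.SoundR
import Pool.Agent.Lib.P2baR.ComplR

/-! The reduction is correct and computable in polynomial time. -/

set_option autoImplicit false

namespace Pool.Agent.Lib.P2baR

open Pool.Agent.Lib.P2ba8ab Pool.Agent.Lib.PolyTime Pool.Agent.Lib.Pa7c826 P2baC

variable {V : Type} {H : V → V → Prop} {par : V → V} {ht : V → ℕ} {cl : V → Bool} {v0 : V}
  {len : Bool → ℕ} {e : ℕ}

theorem emb_inj {n0 n : ℕ} (en : Fin n0 ≃ Core ht) (h : n0 ≤ n) :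
    Function.Injective (emb en h) := by
  intro v w hvw
  have h1 := Fin.castLE_injective h hvw
  exact en.symm.injective h1

theorem col_emb {n0 n : ℕ} (en : Fin n0 ≃ Core ht) (h : n0 ≤ n) (v : Core ht) :
    col cl en (emb en h v : Fin n) = cl v.1 := by
  unfold col emb
  have h1 : ((Fin.castLE h (en.symm v) : Fin n) : ℕ) < n0 := (en.symm v).2
  rw [dif_pos h1]
  have h2 : (⟨((Fin.castLE h (en.symm v) : Fin n) : ℕ), h1⟩ : Fin n0) = en.symm v := Fin.ext rfl
  rw [h2, Equiv.apply_symm_apply]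

/-- there are at least three tree vertices -/
theorem three_le [Finite V] (D : Dat H par ht cl v0 len e) :
    3 ≤ Nat.card {x : V // 0 < ht x} := by
  classical
  obtain ⟨b, c, hbc, hb, hc, h1, h2⟩ := D.trees.deg v0 D.v0c
  obtain ⟨x, hx, hx'⟩ := D.tall v0 D.v0c
  obtain ⟨y, hy, hy'⟩ := D.tall b hb
  obtain ⟨z, hz, hz'⟩ := D.tall c hc
  have hvb : v0 ≠ b := by
    rintro rfl
    exact D.cls _ _ h1 rfl
  have hvc : v0 ≠ c := by
    rintro rfl
    exact D.cls _ _ h2 rfl
  have := Fintype.ofFinite {x : V // 0 < ht x}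
  have hxy : x ≠ y := by
    rintro rfl
    exact hvb (hx.symm.trans hy)
  have hxz : x ≠ z := by
    rintro rfl
    exact hvc (hx.symm.trans hz)
  have hyz : y ≠ z := by
    rintro rfl
    exact hbc (hy.symm.trans hz)
  rw [Nat.card_eq_fintype_card]
  let X : {x : V // 0 < ht x} := ⟨x, by omega⟩
  let Y : {x : V // 0 < ht x} := ⟨y, by omega⟩
  let Z : {x : V // 0 < ht x} := ⟨z, by omega⟩
  have h3 : ({X, Y, Z} : Finset {x : V // 0 < ht x}).card = 3 := by
    rw [Finset.card_eq_three]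
    exact ⟨X, Y, Z, fun h => hxy (congrArg Subtype.val h), fun h => hxz (congrArg Subtype.val h),
      fun h => hyz (congrArg Subtype.val h), rfl⟩
  rw [← h3]
  exact Finset.card_le_univ _

theorem ret_iff [Finite V] (D : Dat H par ht cl v0 len e) {n0 c0 : ℕ} (en : Fin n0 ≃ Core ht)
    (e0 : Fin c0 ≃ {x : V // 0 < ht x}) (g : Gr) :
    RetCore H ht cl en g ↔ SurjHom (redR H par ht cl ⟨v0, D.v0c⟩ len e en e0 g).G H := by
  have := Fintype.ofFinite V
  by_cases h : n0 ≤ g.n
  · rw [surj_redR _ _ _ _ _ _ _ _ _ h]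
    constructor
    · rintro ⟨_, h1, r, h2, h3, h4⟩
      refine compl D (fun a b : Fin g.n => g.G.Adj a b) (fun a => col cl en a) (emb en h)
        (fun v => col_emb en h v) h1 r h2 h3 ?_
      intro v
      have h5 := h4 (en.symm v)
      rw [Equiv.apply_symm_apply] at h5
      exact h5
    · intro hs
      obtain ⟨h1, r, h2, h3, h4⟩ := sound D (fun a b : Fin g.n => g.G.Adj a b)
        (fun a => g.G.loopless.irrefl a) (fun a => col cl en a) (emb en h) (emb_inj en h)
        (fun v => col_emb en h v) hs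
      refine ⟨h, h1, r, h2, h3, fun i => ?_⟩
      have h5 := h4 (en i)
      unfold emb at h5
      rw [Equiv.symm_apply_apply] at h5
      exact h5
  · constructor
    · rintro ⟨h', -⟩
      exact absurd h' h
    · intro hs
      have hc : 3 ≤ c0 := by
        have h1 := three_le D
        rw [Nat.card_congr e0.symm, Nat.card_fin] at h1
        exact h1
      exact absurd hs (not_surj H par cl _ len e en e0 g D.cls hc h)

theorem mainR [Finite V] (D : Dat H par ht cl v0 len e) {n0 : ℕ} (en : Fin n0 ≃ Core ht) :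
    ∃ f : Gr → Gr, Nonempty (Turing.TM2ComputableInPolyTime Gr.encode Gr.encode f) ∧
      ∀ g, RetCore H ht cl en g ↔ SurjHom (f g).G H := by
  obtain ⟨c0, ⟨e0⟩⟩ := Finite.exists_equiv_fin {x : V // 0 < ht x}
  refine ⟨redR H par ht cl ⟨v0, D.v0c⟩ len e en e0.symm, ?_, fun g => ret_iff D en e0.symm g⟩
  obtain ⟨⟨tm, time, hout⟩⟩ := PolyC.toTM2 Gr.encode (D := fun _ => True)
    (redR H par ht cl ⟨v0, D.v0c⟩ len e en e0.symm) Gr.encode (poly_redR H par cl _ len e en e0.symm)
  exact ⟨⟨tm, time, fun g => hout ⟨g, trivial⟩⟩⟩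

end Pool.Agent.Lib.P2baR
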