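import Pool.Agent.Lib.P2baR.MaxS
import Pool.Agent.Lib.P2baR.Conn

/-!
# Module P2baR.Img: surjective homomorphisms are injective on the core

PROOF. Let S be the set of `exists_maxS D.trees e D.tall`. Choose for every x ∈ V a vertex y x of
the instance with f (y x) = x (y is injective). Let Yt be the set of the z with 0 < ht z such that
y x = inl z for some x ∈ S, and Y2 the set of the (p, k) with y x = inr (p, k) for some x ∈ S. Since
y is injective, |Yt| + |Y2| = |S|. Let B = f (U Yt Y2) (image, a finite set of vertices of H). By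
`conn` and symmetry (H symmetric, `Walk.symm`, `Walk.map`, concatenation of walks) any two elements
of B are joined by a walk in H inside B (relation `In H B`). Every x ∈ S is in B: y x ∈ U (if
y x = inl z then z ∈ St Yt by `Anc.refl`; if y x = inr (p, k) then it is in its own way).
CLAIM: B contains St S and the core. Let z ∈ St S: Anc z x, x ∈ S. There is a core vertex v' ≠
root x (`Trees.deg` at root x gives two neighbours in the core, at least one is different from
root x; or use that H is irreflexive: a neighbour b of root x has b ≠ root x by D.cls) and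
x' ∈ S with root x' = v'; not Anc z x' (roots, `Anc.root`). `cross_anc` gives z ∈ B. For v in the
core take x ∈ S with positive height and root v, and x' ∈ S with another root: `cross_root` gives
v ∈ B.
So |core| + |St S| ≤ |B| ≤ |U| ≤ |core| + |St Yt| + e |Y2| (`card_U`; core and St S are disjoint,
heights). Hence |St S| - e |S| ≤ |St Yt| + e |Y2| - e |S| = |St Yt| - e |Yt|, and by maximality of
S equality holds everywhere; the minimality of |S| gives |S| ≤ |Yt|, so Y2 = ∅. Equality in
|B| = |U| shows that f is injective on U (`Finset.card_image_iff`), in particular on the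
vertices (ι v, 0).
-/

set_option autoImplicit false
set_option linter.unusedSectionVars false

namespace Pool.Agent.Lib.P2baR

open Pool.Agent.Lib.P2ba8ab

namespace ImgAux

theorem walk_trans {V : Type} {H : V → V → Prop} {n m : ℕ} {u v w : V} (h : Walk H n u v)
    (h' : Walk H m v w) : ∃ k, Walk H k u w := by
  induction n generalizing u with
  | zero =>
    obtain rfl : u = v := h
    exact ⟨m, h'⟩
  | succ n ih =>
    obtain ⟨x, hx, hw⟩ := h
    obtain ⟨k, hk⟩ := ih hw
    exact ⟨k + 1, x, hx, hk⟩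

theorem mem_St {V : Type} [Fintype V] {par : V → V} {ht : V → ℕ} {Y : Finset V} {z : V} :
    z ∈ St par ht Y ↔ ∃ x ∈ Y, Anc par ht z x := by
  classical
  unfold St
  rw [Finset.mem_filter]
  exact ⟨fun h => h.2, fun h => ⟨Finset.mem_univ _, h⟩⟩

theorem mem_U {V : Type} [Fintype V] {P : Type} [Fintype P] {par : V → V} {ht : V → ℕ}
    {len : Bool → ℕ} {e : ℕ} {clP : P → Bool} {ι : Core ht → P} {he : 0 < e} {Yt : Finset V}
    {Y2 : Finset (P × Fin e)} {w : W ht P e} :
    w ∈ U par ht len clP ι he Yt Y2 ↔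
    ((∃ v : Core ht, w = Sum.inr (ι v, ⟨0, he⟩)) ∨
    (∃ z : {x : V // 0 < ht x}, w = Sum.inl z ∧ z.1 ∈ St par ht Yt) ∨
    (∃ y ∈ Y2, w ∈ way ht len clP y)) := by
  classical
  unfold U
  rw [Finset.mem_filter]
  exact ⟨fun h => h.2, fun h => ⟨Finset.mem_univ _, h⟩⟩

theorem mem_way_self {V : Type} [Fintype V] {P : Type} [Fintype P] {ht : V → ℕ}
    {len : Bool → ℕ} {e : ℕ} {clP : P → Bool} (y : P × Fin e) :
    (Sum.inr y : W ht P e) ∈ way ht len clP y := by
  classical
  unfold way
  rw [Finset.mem_filter]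
  exact ⟨Finset.mem_univ _, y.2, rfl, Or.inr rfl⟩

theorem exists_other {V : Type} {H : V → V → Prop} {par : V → V} {ht : V → ℕ}
    (T : Trees H par ht) (v : V) (hv : ht v = 0) : ∃ v', v' ≠ v ∧ ht v' = 0 := by
  obtain ⟨b, c, hbc, hb, hc, -, -⟩ := T.deg v hv
  by_cases h : b = v
  · exact ⟨c, fun h' => hbc (h.trans h'.symm), hc⟩
  · exact ⟨b, h, hb⟩

end ImgAux

open ImgAux in
theorem inj_core {V : Type} [Fintype V] {H : V → V → Prop} {par : V → V} {ht : V → ℕ}
    {cl : V → Bool} {v0 : V} {len : Bool → ℕ} {e : ℕ} {P : Type} [Fintype P]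
    (D : Dat H par ht cl v0 len e) (E : P → P → Prop)
    (clP : P → Bool) (ι : Core ht → P) (hι : Function.Injective ι) (hcl : ∀ v, clP (ι v) = cl v.1)
    (he : 0 < e) (f : W ht P e → V)
    (hf : ∀ a b, (gr H par ht len e E clP ι (ι ⟨v0, D.v0c⟩)).Adj a b → H (f a) (f b))
    (hs : Function.Surjective f) (v w : Core ht)
    (h : f (Sum.inr (ι v, ⟨0, he⟩)) = f (Sum.inr (ι w, ⟨0, he⟩))) : v = w := by
  classical
  obtain ⟨S, hmax, hmin, hcov⟩ := exists_maxS D.trees e D.tall
  choose y hy using hs
  set T : Finset (W ht P e) := S.image y with hT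
  set Yt : Finset V := T.toLeft.image Subtype.val with hYt
  set Y2 : Finset (P × Fin e) := T.toRight with hY2
  have hcard : Yt.card + Y2.card ≤ S.card := by
    have h1 : Yt.card ≤ T.toLeft.card := Finset.card_image_le
    have h2 : T.toLeft.card + T.toRight.card = T.card := Finset.card_toLeft_add_card_toRight
    have h3 : T.card ≤ S.card := Finset.card_image_le
    rw [← hY2] at h2
    omega
  set U0 := U par ht len clP ι he Yt Y2 with hU0
  set B : Finset V := U0.image f with hB
  have hwalkB : ∀ w ∈ U0, ∃ n, Walk (In H (↑B : Set V)) n (f w)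
      (f (Sum.inr (ι ⟨v0, D.v0c⟩, ⟨0, he⟩))) := by
    intro w hw
    obtain ⟨n, hn⟩ := conn D E clP ι hι hcl he Yt Y2 w hw
    refine ⟨n, Walk.map ?_ hn⟩
    rintro a b ⟨ha, hb, hab⟩
    exact ⟨Finset.mem_coe.2 (Finset.mem_image_of_mem f (Finset.mem_coe.1 ha)),
      Finset.mem_coe.2 (Finset.mem_image_of_mem f (Finset.mem_coe.1 hb)), hf a b hab⟩
  have hsymm : ∀ a b, In H (↑B : Set V) a b → In H (↑B : Set V) b a :=
    fun a b ⟨ha, hb, hab⟩ => ⟨hb, ha, D.trees.symm a b hab⟩
  have hwalk2 : ∀ a ∈ B, ∀ b ∈ B, ∃ n, Walk (In H (↑B : Set V)) n a b := by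
    intro a ha b hb
    obtain ⟨w, hw, rfl⟩ := Finset.mem_image.1 ha
    obtain ⟨w', hw', rfl⟩ := Finset.mem_image.1 hb
    obtain ⟨n, hn⟩ := hwalkB w hw
    obtain ⟨m, hm⟩ := hwalkB w' hw'
    exact walk_trans hn (hm.symm hsymm)
  have hSB : ∀ x ∈ S, x ∈ B := by
    intro x hx
    rw [hB, Finset.mem_image]
    refine ⟨y x, ?_, hy x⟩
    have hyT : y x ∈ T := Finset.mem_image_of_mem y hx
    rw [hU0, mem_U]
    rcases hc : y x with z | q
    · right; left
      refine ⟨z, rfl, mem_St.2 ⟨z.1, ?_, Anc.refl z.2⟩⟩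
      rw [hYt]
      refine Finset.mem_image_of_mem Subtype.val ?_
      rw [Finset.mem_toLeft, ← hc]
      exact hyT
    · right; right
      refine ⟨q, ?_, mem_way_self q⟩
      rw [hY2, Finset.mem_toRight, ← hc]
      exact hyT
  have hStB : ∀ z ∈ St par ht S, z ∈ B := by
    intro z hz
    obtain ⟨x, hx, hzx⟩ := mem_St.1 hz
    obtain ⟨v', hv', hv'0⟩ := exists_other D.trees (root par ht x) (ht_root D.trees x)
    obtain ⟨x', hx', hx'0, hx'r⟩ := hcov v' hv'0
    obtain ⟨n, hn⟩ := hwalk2 x (hSB x hx) x' (hSB x' hx')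
    refine Finset.mem_coe.1 (cross_anc D.trees hn hzx ?_)
    intro h1
    apply hv'
    rw [← hx'r, ← Anc.root D.trees h1, Anc.root D.trees hzx]
  have hCB : ∀ v, ht v = 0 → v ∈ B := by
    intro v hv
    obtain ⟨v', hv', hv'0⟩ := exists_other D.trees v hv
    obtain ⟨x, hx, hx0, hxr⟩ := hcov v hv
    obtain ⟨x', hx', hx'0, hx'r⟩ := hcov v' hv'0
    obtain ⟨n, hn⟩ := hwalk2 x (hSB x hx) x' (hSB x' hx')
    refine Finset.mem_coe.1 (cross_root D.trees hn hx0 hxr ?_)
    rintro ⟨-, h1⟩
    exact hv' (hx'r.symm.trans h1)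
  have hcount : Nat.card (Core ht) + (St par ht S).card ≤ B.card := by
    have h1 : Nat.card (Core ht) = ((Finset.univ : Finset V).filter (fun v => ht v = 0)).card := by
      rw [Nat.card_eq_fintype_card, Fintype.card_subtype]
    rw [h1, ← Finset.card_union_of_disjoint]
    · refine Finset.card_le_card ?_
      intro z hz
      rcases Finset.mem_union.1 hz with hz | hz
      · exact hCB z (Finset.mem_filter.1 hz).2
      · exact hStB z hz
    · rw [Finset.disjoint_left]
      intro z hz1 hz2
      obtain ⟨x, -, hzx⟩ := mem_St.1 hz2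
      have h2 := Anc.pos D.trees hzx
      have h3 := (Finset.mem_filter.1 hz1).2
      omega
  have hBU : B.card ≤ U0.card := Finset.card_image_le
  have hU := card_U D clP ι he Yt Y2
  rw [← hU0] at hU
  have hm := hmax Yt
  have hprod : e * Yt.card + e * Y2.card ≤ e * S.card := by
    rw [← Nat.mul_add]
    exact Nat.mul_le_mul_left e hcard
  have hle : (St par ht S).card ≤ (St par ht Yt).card + e * Y2.card := by omega
  have hmZ : (St par ht Yt).card + e * S.card ≤ (St par ht S).card + e * Yt.card := by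
    have h1 : ((St par ht Yt).card : ℤ) + e * S.card ≤ (St par ht S).card + e * Yt.card := by
      linarith
    exact_mod_cast h1
  have heq : ((St par ht Yt).card : ℤ) - e * Yt.card = ((St par ht S).card : ℤ) - e * S.card := by
    have h1 : (St par ht Yt).card + e * S.card = (St par ht S).card + e * Yt.card := by omega
    have h2 : ((St par ht Yt).card : ℤ) + e * S.card = (St par ht S).card + e * Yt.card := by
      exact_mod_cast h1
    linarith
  have hs1 := hmin Yt heq
  have ht1 : Yt.card = S.card := by omega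
  have hq : Y2.card = 0 := by omega
  have hfin : B.card = U0.card := by
    rw [ht1] at hmZ
    rw [hq] at hU
    simp only [Nat.mul_zero, Nat.add_zero] at hU
    omega
  have hinj : Set.InjOn f (↑U0 : Set (W ht P e)) := Finset.card_image_iff.1 hfin
  have h1 : ∀ v : Core ht, (Sum.inr (ι v, ⟨0, he⟩) : W ht P e) ∈ (↑U0 : Set (W ht P e)) :=
    fun v => Finset.mem_coe.2 (by rw [hU0, mem_U]; exact Or.inl ⟨v, rfl⟩)
  have h2 := hinj (h1 v) (h1 w) h
  have h3 := Sum.inr.inj h2
  exact hι (Prod.ext_iff.1 h3).1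

end Pool.Agent.Lib.P2baR
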