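import Pool.Agent.Lib.P2baR.Defs

/-!
# Module P2baR.PolyR: reductions given by a finite table with marks, one gadget for every vertex

The same argument as in `Lib/P2baC/PolyT.lean` (`poly_tabF`, `poly_of_table`), with the index set
`c0 + n R` instead of `c0 + n n R`, for tables which also see the marks of the vertices and whether
`n0 ≤ n`.

PROOF. `idx1_*`: `finProdFinEquiv`, `finSumFinEquiv` (see `idx_inl`, `iA_inr` in
`Lib/P2ba8ab/Poly.lean`; the value at inr (a, t) is c0 + (t + R a)).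
`poly_tabG`: as `poly_tabF`: the tags by `poly_iT`, the vertex (i - c0)/R by `nDiv'`, `PolyN.sub`;
the mark `if a < n0 then a else n0 + (a - n0) % 2` by `PolyC.ite` as in `poly_iT`, with `nMod'`;
`decide (n0 ≤ n)` by `PolyB.le`. Then `bCases` for the two tags (bound c0 + R) and for the two marks
(bound n0 + 2), and `bFun` for the remaining three bits (`fun z : Fin 3 → Bool => M .. (z 0) (z 1) ..
(z 2)`), or a simple variant. `poly_of_tableG`: as `poly_of_table`.
-/

set_option autoImplicit false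

namespace Pool.Agent.Lib.P2baR

open Pool.Agent.Lib.P2ba8ab Pool.Agent.Lib.PolyTime Pool.Agent.Lib.Pa7c826 P2baC

/-- the vertex of an index -/
def jA (c0 R i : ℕ) : ℕ := (i - c0) / R

/-- the mark of a vertex: the number of a vertex less than `n0`, the parity of the others -/
def mark (n0 a : ℕ) : ℕ := if a < n0 then a else n0 + (a - n0) % 2

theorem mark_lt (n0 a : ℕ) : mark n0 a < n0 + 2 := by
  unfold mark
  split_ifs <;> omega

/-- the nodes as indices -/
def idx1 (c0 R n : ℕ) : Fin c0 ⊕ (Fin n × Fin R) ≃ Fin (c0 + n * R) :=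
  (Equiv.sumCongr (Equiv.refl _) finProdFinEquiv).trans finSumFinEquiv

namespace PolyRAux

theorem idx1_inl (c0 R n : ℕ) (u : Fin c0) : (idx1 c0 R n (Sum.inl u) : ℕ) = u := by
  simp [idx1]

theorem idx1_inr (c0 R n : ℕ) (a : Fin n) (t : Fin R) :
    (idx1 c0 R n (Sum.inr (a, t)) : ℕ) = c0 + (t + R * a) := by
  simp [idx1]

end PolyRAux

theorem iT_idx1_inl (c0 R n : ℕ) (u : Fin c0) :
    iT c0 R (idx1 c0 R n (Sum.inl u)) = u := by
  rw [PolyRAux.idx1_inl]
  simp [iT]

theorem iT_idx1_inr (c0 R n : ℕ) (a : Fin n) (t : Fin R) :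
    iT c0 R (idx1 c0 R n (Sum.inr (a, t))) = c0 + t := by
  rw [PolyRAux.idx1_inr]
  have h : ¬ c0 + (t.1 + R * a.1) < c0 := by omega
  simp only [iT, h, decide_false, Bool.false_eq_true, if_false, Nat.add_sub_cancel_left]
  rw [Nat.add_mul_mod_self_left, Nat.mod_eq_of_lt t.2]

theorem jA_idx1_inr (c0 R n : ℕ) (a : Fin n) (t : Fin R) :
    jA c0 R (idx1 c0 R n (Sum.inr (a, t))) = a := by
  have hR : 0 < R := by have := t.2; omega
  rw [PolyRAux.idx1_inr, jA, Nat.add_sub_cancel_left, Nat.add_mul_div_left _ _ hR,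
    Nat.div_eq_of_lt t.2, zero_add]

/-- the adjacency function given by a table -/
noncomputable def tabG (c0 R n0 : ℕ) (M : ℕ → ℕ → Bool → Bool → ℕ → ℕ → Bool → Bool) (g : Gr)
    (i j : ℕ) : Bool :=
  M (iT c0 R i) (iT c0 R j) (decide (jA c0 R i = jA c0 R j)) (adjN g (jA c0 R i) (jA c0 R j))
    (mark n0 (jA c0 R i)) (mark n0 (jA c0 R j)) (decide (n0 ≤ g.n))

namespace PolyRAux

variable {α : Type} {D : α → Prop} {ctx : List (α → List Bool)}

theorem poly_jA {c0 R : ℕ} {i : α → ℕ} (hi : PolyN D ctx i) :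
    PolyN D ctx (fun a => jA c0 R (i a)) :=
  nDiv' (PolyN.sub hi (PolyN.const c0)) (PolyN.const R)

theorem poly_mark {n0 : ℕ} {i : α → ℕ} (hi : PolyN D ctx i) :
    PolyN D ctx (fun a => mark n0 (i a)) := by
  refine PolyC.congr (PolyC.ite (PolyB.lt hi (PolyN.const n0)) (PolyC.mono hi fun _ h => h.1)
    (PolyC.mono ((PolyN.const n0).add (nMod' (PolyN.sub hi (PolyN.const n0)) (PolyN.const 2)))
      fun _ h => h.1)) (fun a _ => ?_)
  by_cases h : i a < n0
  · simp only [mark, h, decide_true, if_true]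
  · simp only [mark, h, decide_false, Bool.false_eq_true, if_false]

theorem poly_tabG (c0 R n0 : ℕ) (M : ℕ → ℕ → Bool → Bool → ℕ → ℕ → Bool → Bool)
    {g : α → Gr} {i j : α → ℕ}
    (hn : PolyN D ctx (fun a => (g a).n))
    (hr : PolyC D ctx (fun a => (List.range ((g a).n * (g a).n)).map
      (fun k => adjN (g a) (k / (g a).n) (k % (g a).n))))
    (hi : PolyN D ctx i) (hj : PolyN D ctx j)
    (hi' : ∀ a, D a → i a < c0 + (g a).n * R)
    (hj' : ∀ a, D a → j a < c0 + (g a).n * R) :
    PolyB D ctx (fun a => tabG c0 R n0 M (g a) (i a) (j a)) := by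
  have hAi := poly_jA (c0 := c0) (R := R) hi
  have hAj := poly_jA (c0 := c0) (R := R) hj
  have hent : PolyB D ctx (fun a => adjN (g a) (jA c0 R (i a)) (jA c0 R (j a))) := by
    have h0 : PolyB D ctx (fun a => (decide (jA c0 R (j a) < (g a).n)) &&
        adjN (g a) (jA c0 R (i a)) (jA c0 R (j a))) := by
      refine ((PolyB.lt hAj hn).and (PolyB.getD hr ((hAi.mul hn).add hAj))).congr (fun a _ => ?_)
      by_cases h : jA c0 R (j a) < (g a).n
      · rw [adjN_getD _ _ _ h]
      · simp [h]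
    refine h0.congr (fun a _ => ?_)
    by_cases h : jA c0 R (j a) < (g a).n
    · simp [h]
    · simp [h, adjN]
  have hlt : ∀ {u : α → ℕ}, (∀ a, D a → u a < c0 + (g a).n * R) →
      ∀ a, D a → iT c0 R (u a) < c0 + R := by
    intro u hu a ha
    have h1 := hu a ha
    unfold iT
    split_ifs with h
    · simp only [decide_eq_true_eq] at h
      omega
    · simp only [decide_eq_true_eq] at h
      have hR : 0 < R := by
        rcases Nat.eq_zero_or_pos R with h0 | h0
        · subst h0; omega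
        · exact h0
      have := Nat.mod_lt (u a - c0) hR
      omega
  have hbits : ∀ k : Fin 3, PolyB D ctx (fun a =>
      (fun r : Fin 3 => if r = 0 then decide (jA c0 R (i a) = jA c0 R (j a)) else
        if r = 1 then adjN (g a) (jA c0 R (i a)) (jA c0 R (j a)) else
          decide (n0 ≤ (g a).n)) k) := by
    intro k
    fin_cases k
    · exact PolyB.natEq hAi hAj
    · exact hent
    · exact PolyB.le (PolyN.const n0) hn
  unfold tabG
  refine bCases (poly_iT hi) (fun k a => M k (iT c0 R (j a))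
    (decide (jA c0 R (i a) = jA c0 R (j a))) (adjN (g a) (jA c0 R (i a)) (jA c0 R (j a)))
    (mark n0 (jA c0 R (i a))) (mark n0 (jA c0 R (j a))) (decide (n0 ≤ (g a).n)))
    (c0 + R) ?_ (hlt hi')
  intro k _
  refine bCases (poly_iT hj) (fun k' a => M k k'
    (decide (jA c0 R (i a) = jA c0 R (j a))) (adjN (g a) (jA c0 R (i a)) (jA c0 R (j a)))
    (mark n0 (jA c0 R (i a))) (mark n0 (jA c0 R (j a))) (decide (n0 ≤ (g a).n)))
    (c0 + R) ?_ (hlt hj')
  intro k' _
  refine bCases (poly_mark (n0 := n0) hAi) (fun m a => M k k'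
    (decide (jA c0 R (i a) = jA c0 R (j a))) (adjN (g a) (jA c0 R (i a)) (jA c0 R (j a)))
    m (mark n0 (jA c0 R (j a))) (decide (n0 ≤ (g a).n)))
    (n0 + 2) ?_ (fun a _ => mark_lt _ _)
  intro m _
  refine bCases (poly_mark (n0 := n0) hAj) (fun m' a => M k k'
    (decide (jA c0 R (i a) = jA c0 R (j a))) (adjN (g a) (jA c0 R (i a)) (jA c0 R (j a)))
    m m' (decide (n0 ≤ (g a).n)))
    (n0 + 2) ?_ (fun a _ => mark_lt _ _)
  intro m' _
  exact bFun (fun z : Fin 3 → Bool => M k k' (z 0) (z 1) m m' (z 2)) hbits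

end PolyRAux

/-- a reduction given by a table is computable in polynomial time -/
theorem poly_of_tableG (c0 R n0 : ℕ) (M : ℕ → ℕ → Bool → Bool → ℕ → ℕ → Bool → Bool)
    (red : Gr → Gr) (hn' : ∀ g, (red g).n = c0 + g.n * R)
    (hadj : ∀ g i j, i < c0 + g.n * R → j < c0 + g.n * R →
      adjN (red g) i j = tabG c0 R n0 M g i j) :
    PolyC (fun _ : Gr => True) [Gr.encode] (fun g => (red g).encode) := by
  have hn : PolyN (fun _ : Gr => True) [Gr.encode] (fun g => g.n) := poly_n
  have hM : PolyN (fun _ : Gr => True) [Gr.encode] (fun g => c0 + g.n * R) :=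
    (PolyN.const c0).add (hn.mul (PolyN.const R))
  have hMM := hM.mul hM
  have hN := upN (n := fun g : Gr => (c0 + g.n * R) * (c0 + g.n * R)) hn
  have hMu := upN (n := fun g : Gr => (c0 + g.n * R) * (c0 + g.n * R)) hM
  have hr := up (n := fun g : Gr => (c0 + g.n * R) * (c0 + g.n * R))
    (poly_rest (D := fun _ : Gr => True))
  have hL := last (D := fun _ : Gr => True) (ctx := [Gr.encode])
    (n := fun g : Gr => (c0 + g.n * R) * (c0 + g.n * R))
  have hpos : ∀ p : Gr × ℕ, True ∧ p.2 < (c0 + p.1.n * R) * (c0 + p.1.n * R) →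
      0 < c0 + p.1.n * R := by
    rintro p ⟨-, h⟩
    rcases Nat.eq_zero_or_pos (c0 + p.1.n * R) with h0 | h0
    · rw [h0] at h; omega
    · exact h0
  have h1 := PolyRAux.poly_tabG c0 R n0 M (g := fun p : Gr × ℕ => p.1)
    (i := fun p => p.2 / (c0 + p.1.n * R)) (j := fun p => p.2 % (c0 + p.1.n * R))
    hN hr (nDiv' hL hMu) (nMod' hL hMu)
    (fun p hp => (Nat.div_lt_iff_lt_mul (hpos p hp)).2 hp.2)
    (fun p hp => Nat.mod_lt _ (hpos p hp))
  have h2 := PolyC.map_range hMM h1
  have h3 := PolyC.append hM (PolyC.cons false h2)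
  refine h3.congr (fun g _ => ?_)
  rw [encode_eq]
  rw [hn']
  congr 2
  refine List.map_congr_left ?_
  intro k hk
  rw [List.mem_range] at hk
  have hp := hpos (g, k) ⟨trivial, hk⟩
  exact (hadj g _ _ ((Nat.div_lt_iff_lt_mul hp).2 hk) (Nat.mod_lt _ hp)).symm

end Pool.Agent.Lib.P2baR
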