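import Pool.Agent.Lib.P2baR.PolyR

/-!
# The retraction problem for the core and the reduction (MP_2ba8ab_lc)
-/

set_option autoImplicit false

namespace Pool.Agent.Lib.P2baR

open Pool.Agent.Lib.P2ba8ab Pool.Agent.Lib.PolyTime Pool.Agent.Lib.Pa7c826 P2baC

variable {V : Type}

/-- The class of the vertex `a` of an instance: for `a < n0` the class of the vertex `en a` of the
core, otherwise the parity of `a - n0`. -/
noncomputable def col {ht : V → ℕ} {n0 : ℕ} (cl : V → Bool) (en : Fin n0 ≃ Core ht) (a : ℕ) :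
    Bool :=
  if h : a < n0 then cl (en ⟨a, h⟩).1 else decide ((a - n0) % 2 = 1)

/-- The retraction problem for the core: the instance is a graph with the bipartition `col`, whose
first `n0` vertices are the vertices of the core; the question is whether the identity of the core
extends to a homomorphism of the graph to the core. -/
def RetCore (H : V → V → Prop) (ht : V → ℕ) (cl : V → Bool) {n0 : ℕ} (en : Fin n0 ≃ Core ht)
    (g : Gr) : Prop :=
  ∃ h : n0 ≤ g.n, (∀ a b : Fin g.n, g.G.Adj a b → col cl en a ≠ col cl en b) ∧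
    ∃ r : Fin g.n → V, (∀ a, ht (r a) = 0) ∧ (∀ a b, g.G.Adj a b → H (r a) (r b)) ∧
      ∀ i : Fin n0, r (Fin.castLE h i) = (en i).1

/-- the copy of the core in an instance -/
def emb {ht : V → ℕ} {n0 n : ℕ} (en : Fin n0 ≃ Core ht) (h : n0 ≤ n) (v : Core ht) : Fin n :=
  Fin.castLE h (en.symm v)

open Classical in
/-- the reduction -/
noncomputable def redR (H : V → V → Prop) (par : V → V) (ht : V → ℕ) (cl : V → Bool) (v0 : Core ht)
    (len : Bool → ℕ) (e : ℕ) {n0 c0 : ℕ} (en : Fin n0 ≃ Core ht)
    (e0 : Fin c0 ≃ {x : V // 0 < ht x}) (g : Gr) : Gr where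
  n := c0 + g.n * e
  G := if h : n0 ≤ g.n then
      (gr H par ht len e (fun a b : Fin g.n => g.G.Adj a b) (fun a => col cl en a) (emb en h)
        (emb en h v0)).comap
        ((idx1 c0 e g.n).symm.trans (Equiv.sumCongr e0 (Equiv.refl _)))
    else ⊤

end Pool.Agent.Lib.P2baR
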