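import Pool.Agent.Lib.P2baR.Prob

/-!
# Module P2baR.TableR: the reduction is given by a finite table

`poly_redR`. PROOF (see `Lib/P2baC/Table.lean` for the same kind of argument). The table M k k' eq ad
m m' fl with tags k, k' (k < c0: the tree vertex e0 k; c0 ≤ k: the number t = k - c0 < e of the
vertex (a, t)), eq = (a = a'), ad = adjacency of a, a', marks m, m', flag fl = (n0 ≤ n):
if fl is false: true iff not (k = k' and (k < c0 or eq)) (the complete graph).
If fl is true: true iff the two nodes differ (same formula) and (rel k k' eq ad m m' or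
rel k' k eq ad m' m), where rel is
(x, y): H x y; (x, t): t = 0 and m' < n0 and (en m').1 = par x;
(t, t'): (t = 0 and t' = 0 and (ad or (m < n0 and m' < n0 and H (en m).1 (en m').1))) or
(eq and t' = t + 1 and t' < len (colm m)) or (t' = 0 and m' = i0 and len (colm m) ≤ t + 1);
(t, y): false. Here colm m = cl (en m).1 if m < n0 and decide (m - n0 = 1) otherwise, so
colm (mark n0 a) = col cl en a, and i0 = (en.symm v0 : ℕ); mark n0 a = i0 iff a = i0 (i0 < n0);
for a < n0: mark n0 a = a, and `emb en h v = a` iff a < n0 and en a = v; for a ≥ n0 the mark is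
≥ n0. The adjacency of a simple graph is symmetric, so ad is the same for the reversed pair
(`adjN_fin`, `adjN`). Check adjacency through `idx1` (every index is idx1 of a node,
`Equiv.apply_symm_apply`), `iT_idx1_inl`, `iT_idx1_inr`, `jA_idx1_inr`; then `poly_of_tableG`.
`surj_redR`: transport along the bijection of the vertices, as `surj_redC` in Lib/P2baC/Table.lean.
`not_surj`: for n < n0 the graph is complete on c0 + n e ≥ 3 vertices, a homomorphism to H would map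
three pairwise adjacent vertices to three pairwise adjacent vertices of H, contradicting `cls`
(two of the three have the same class).
-/

set_option autoImplicit false

namespace Pool.Agent.Lib.P2baR

open Pool.Agent.Lib.P2ba8ab Pool.Agent.Lib.PolyTime Pool.Agent.Lib.Pa7c826 P2baC

variable {V : Type} {ht : V → ℕ} {n0 c0 : ℕ}

namespace TableRAux

/-- the class read off from a mark -/
noncomputable def colm (cl : V → Bool) (en : Fin n0 ≃ Core ht) (m : ℕ) : Bool :=
  if h : m < n0 then cl (en ⟨m, h⟩).1 else decide (m - n0 = 1)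

theorem colm_mark (cl : V → Bool) (en : Fin n0 ≃ Core ht) (a : ℕ) :
    colm cl en (mark n0 a) = col cl en a := by
  unfold colm col mark
  by_cases h : a < n0
  · simp [h]
  · have h1 : ¬ (n0 + (a - n0) % 2 < n0) := by omega
    simp [h]

/-- the table of the directed edges -/
def relM {e : ℕ} (H : V → V → Prop) (par : V → V) (cl : V → Bool) (v0 : Core ht)
    (len : Bool → ℕ) (en : Fin n0 ≃ Core ht) (e0 : Fin c0 ≃ {x : V // 0 < ht x}) :
    Fin c0 ⊕ Fin e → Fin c0 ⊕ Fin e → Bool → Bool → ℕ → ℕ → Prop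
  | Sum.inl x, Sum.inl y, _, _, _, _ => H (e0 x).1 (e0 y).1
  | Sum.inl x, Sum.inr t, _, _, _, m' =>
      t.1 = 0 ∧ ∃ h : m' < n0, (en ⟨m', h⟩).1 = par (e0 x).1
  | Sum.inr t, Sum.inr t', eq, ad, m, m' =>
      (t.1 = 0 ∧ t'.1 = 0 ∧ (ad = true ∨ ∃ h : m < n0, ∃ h' : m' < n0,
        H (en ⟨m, h⟩).1 (en ⟨m', h'⟩).1)) ∨
      (eq = true ∧ t'.1 = t.1 + 1 ∧ t'.1 < len (colm cl en m)) ∨
      (t'.1 = 0 ∧ m' = (en.symm v0 : ℕ) ∧ len (colm cl en m) ≤ t.1 + 1)
  | Sum.inr _, Sum.inl _, _, _, _, _ => False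

/-- the table of the pairs of different nodes -/
def neM {e : ℕ} : Fin c0 ⊕ Fin e → Fin c0 ⊕ Fin e → Bool → Prop
  | Sum.inl u, Sum.inl v, _ => u ≠ v
  | Sum.inr t, Sum.inr t', z => ¬ (t = t' ∧ z = true)
  | _, _, _ => True

/-- the tag as an element -/
def tg (c0 R k : ℕ) : Option (Fin c0 ⊕ Fin R) :=
  if h : k < c0 then some (Sum.inl ⟨k, h⟩)
  else if h' : k - c0 < R then some (Sum.inr ⟨k - c0, h'⟩) else none

/-- the tag of a node -/
def tgI {n e : ℕ} : Fin c0 ⊕ (Fin n × Fin e) → Fin c0 ⊕ Fin e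
  | Sum.inl u => Sum.inl u
  | Sum.inr (_, t) => Sum.inr t

theorem tg_idx {n e : ℕ} (w : Fin c0 ⊕ (Fin n × Fin e)) :
    tg c0 e (iT c0 e (idx1 c0 e n w)) = some (tgI w) := by
  rcases w with u | ⟨a, t⟩
  · rw [iT_idx1_inl]
    simp [tg, tgI]
  · rw [iT_idx1_inr]
    simp [tg, tgI]

open Classical in
/-- the table -/
noncomputable def tab {e : ℕ} (H : V → V → Prop) (par : V → V) (cl : V → Bool) (v0 : Core ht)
    (len : Bool → ℕ) (en : Fin n0 ≃ Core ht) (e0 : Fin c0 ≃ {x : V // 0 < ht x})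
    (k k' : ℕ) (eq ad : Bool) (m m' : ℕ) (fl : Bool) : Bool :=
  match tg c0 e k, tg c0 e k' with
  | some x, some y => decide (neM x y eq ∧ (fl = true →
      (relM H par cl v0 len en e0 x y eq ad m m' ∨ relM H par cl v0 len en e0 y x eq ad m' m)))
  | _, _ => false

theorem adjN_symm (g : Gr) (a b : ℕ) : adjN g a b = adjN g b a := by
  classical
  unfold adjN
  by_cases h : a < g.n ∧ b < g.n
  · rw [dif_pos h, dif_pos h.symm]
    simp only [decide_eq_decide]
    exact SimpleGraph.adj_comm _ _ _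
  · rw [dif_neg h, dif_neg (fun h' => h h'.symm)]

theorem emb_eq {n : ℕ} (en : Fin n0 ≃ Core ht) (h : n0 ≤ n) (v : Core ht) (p : Fin n) :
    emb en h v = p ↔ ∃ hm : mark n0 p < n0, en ⟨mark n0 p, hm⟩ = v := by
  unfold emb
  constructor
  · intro hp
    have h1 : (p : ℕ) = (en.symm v : ℕ) := by rw [← hp]; rfl
    have h2 : (p : ℕ) < n0 := by rw [h1]; exact (en.symm v).2
    have h3 : mark n0 p = p := by simp [mark, h2]
    refine ⟨by rw [h3]; exact h2, ?_⟩
    have h4 : (⟨mark n0 p, by rw [h3]; exact h2⟩ : Fin n0) = en.symm v := by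
      apply Fin.ext
      simp only
      rw [h3, h1]
    rw [h4, Equiv.apply_symm_apply]
  · rintro ⟨hm, hv⟩
    have h2 : (p : ℕ) < n0 := by
      by_contra hc
      have : ¬ mark n0 p < n0 := by
        unfold mark
        rw [if_neg hc]
        omega
      exact this hm
    have h3 : mark n0 p = p := by simp [mark, h2]
    apply Fin.ext
    rw [← hv, Equiv.symm_apply_apply]
    simp [h3]

theorem emb_val {n : ℕ} (en : Fin n0 ≃ Core ht) (h : n0 ≤ n) (v : Core ht) (p : Fin n) :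
    p = emb en h v ↔ mark n0 p = (en.symm v : ℕ) := by
  rw [eq_comm, emb_eq]
  constructor
  · rintro ⟨hm, hv⟩
    rw [← hv, Equiv.symm_apply_apply]
  · intro hp
    have hm : mark n0 p < n0 := by rw [hp]; exact (en.symm v).2
    refine ⟨hm, ?_⟩
    rw [← Equiv.eq_symm_apply]
    exact Fin.ext hp

theorem rel_iff {e : ℕ} (H : V → V → Prop) (par : V → V) (cl : V → Bool) (v0 : Core ht)
    (len : Bool → ℕ) (en : Fin n0 ≃ Core ht) (e0 : Fin c0 ≃ {x : V // 0 < ht x}) (g : Gr)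
    (h : n0 ≤ g.n) (w w' : Fin c0 ⊕ (Fin g.n × Fin e)) (a a' : ℕ)
    (ha : ∀ p t, w = Sum.inr (p, t) → a = (p : ℕ)) (ha' : ∀ p t, w' = Sum.inr (p, t) → a' = (p : ℕ)) :
    Rel H par ht len (fun a b : Fin g.n => g.G.Adj a b) (fun a => col cl en a) (emb en h)
        (emb en h v0) (Equiv.sumCongr e0 (Equiv.refl _) w) (Equiv.sumCongr e0 (Equiv.refl _) w') ↔
      relM H par cl v0 len en e0 (tgI w) (tgI w') (decide (a = a')) (adjN g a a') (mark n0 a)
        (mark n0 a') := by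
  rcases w with u | ⟨p, t⟩ <;> rcases w' with u' | ⟨q, t'⟩
  · simp only [Equiv.sumCongr_apply, Sum.map_inl, tgI, relM, Rel]
  · have hq : a' = (q : ℕ) := ha' q t' rfl
    subst hq
    simp only [Equiv.sumCongr_apply, Sum.map_inl, Sum.map_inr, tgI, relM, Rel, Equiv.refl_apply]
    refine and_congr Iff.rfl ?_
    constructor
    · rintro ⟨v, hv, hv2⟩
      obtain ⟨hm, hm2⟩ := (emb_eq en h v q).1 hv
      exact ⟨hm, by rw [hm2]; exact hv2⟩
    · rintro ⟨hm, hm2⟩
      exact ⟨en ⟨mark n0 q, hm⟩, (emb_eq en h _ q).2 ⟨hm, rfl⟩, hm2⟩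
  · simp only [Equiv.sumCongr_apply, Sum.map_inl, Sum.map_inr, tgI, relM, Rel, Equiv.refl_apply]
  · have hp : a = (p : ℕ) := ha p t rfl
    have hq : a' = (q : ℕ) := ha' q t' rfl
    subst hp
    subst hq
    simp only [Equiv.sumCongr_apply, Sum.map_inr, tgI, relM, Rel, Equiv.refl_apply]
    refine or_congr (and_congr Iff.rfl (and_congr Iff.rfl (or_congr ?_ ?_)))
      (or_congr ?_ (and_congr Iff.rfl (and_congr ?_ ?_)))
    · exact (adjN_fin g p q).symm
    · constructor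
      · rintro ⟨v, w, hv, hw, hvw⟩
        obtain ⟨hm, hm2⟩ := (emb_eq en h v p).1 hv
        obtain ⟨hk, hk2⟩ := (emb_eq en h w q).1 hw
        exact ⟨hm, hk, by rw [hm2, hk2]; exact hvw⟩
      · rintro ⟨hm, hk, hh⟩
        exact ⟨en ⟨mark n0 p, hm⟩, en ⟨mark n0 q, hk⟩, (emb_eq en h _ p).2 ⟨hm, rfl⟩,
          (emb_eq en h _ q).2 ⟨hk, rfl⟩, hh⟩
    · rw [colm_mark, decide_eq_true_eq, Fin.ext_iff, eq_comm]
    · exact emb_val en h v0 q
    · rw [colm_mark]

theorem ne_iff {e n : ℕ} (w w' : Fin c0 ⊕ (Fin n × Fin e)) (a a' : ℕ)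
    (ha : ∀ p t, w = Sum.inr (p, t) → a = (p : ℕ)) (ha' : ∀ p t, w' = Sum.inr (p, t) → a' = (p : ℕ)) :
    w ≠ w' ↔ neM (tgI w) (tgI w') (decide (a = a')) := by
  rcases w with u | ⟨p, t⟩ <;> rcases w' with u' | ⟨q, t'⟩
  · simp [tgI, neM]
  · simp [tgI, neM]
  · simp [tgI, neM]
  · have hp : a = (p : ℕ) := ha p t rfl
    have hq : a' = (q : ℕ) := ha' q t' rfl
    subst hp
    subst hq
    simp only [tgI, neM, ne_eq, Sum.inr.injEq, Prod.mk.injEq, decide_eq_true_eq, Fin.ext_iff]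
    tauto

theorem redR_G (H : V → V → Prop) (par : V → V) (cl : V → Bool) (v0 : Core ht)
    (len : Bool → ℕ) (e : ℕ) (en : Fin n0 ≃ Core ht) (e0 : Fin c0 ≃ {x : V // 0 < ht x}) (g : Gr)
    (h : n0 ≤ g.n) : (redR H par ht cl v0 len e en e0 g).G =
      (gr H par ht len e (fun a b : Fin g.n => g.G.Adj a b) (fun a => col cl en a) (emb en h)
        (emb en h v0)).comap
        ((idx1 c0 e g.n).symm.trans (Equiv.sumCongr e0 (Equiv.refl _))) := by
  unfold redR
  simp only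
  rw [dif_pos h]

theorem redR_adj (H : V → V → Prop) (par : V → V) (cl : V → Bool) (v0 : Core ht)
    (len : Bool → ℕ) (e : ℕ) (en : Fin n0 ≃ Core ht) (e0 : Fin c0 ≃ {x : V // 0 < ht x}) (g : Gr)
    (h : n0 ≤ g.n) (x y : Fin (c0 + g.n * e)) : (redR H par ht cl v0 len e en e0 g).G.Adj x y ↔
      (gr H par ht len e (fun a b : Fin g.n => g.G.Adj a b) (fun a => col cl en a) (emb en h)
        (emb en h v0)).Adj (Equiv.sumCongr e0 (Equiv.refl _) ((idx1 c0 e g.n).symm x))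
        (Equiv.sumCongr e0 (Equiv.refl _) ((idx1 c0 e g.n).symm y)) := by
  rw [redR_G H par cl v0 len e en e0 g h]
  exact Iff.rfl

theorem redR_G' (H : V → V → Prop) (par : V → V) (cl : V → Bool) (v0 : Core ht)
    (len : Bool → ℕ) (e : ℕ) (en : Fin n0 ≃ Core ht) (e0 : Fin c0 ≃ {x : V // 0 < ht x}) (g : Gr)
    (h : ¬ n0 ≤ g.n) : (redR H par ht cl v0 len e en e0 g).G = ⊤ := by
  unfold redR
  simp only
  rw [dif_neg h]

end TableRAux

theorem poly_redR (H : V → V → Prop) (par : V → V) (cl : V → Bool) (v0 : Core ht)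
    (len : Bool → ℕ) (e : ℕ) (en : Fin n0 ≃ Core ht) (e0 : Fin c0 ≃ {x : V // 0 < ht x}) :
    PolyC (fun _ : Gr => True) [Gr.encode]
      (fun g => (redR H par ht cl v0 len e en e0 g).encode) := by
  refine poly_of_tableG c0 e n0 (TableRAux.tab (e := e) H par cl v0 len en e0)
    (redR H par ht cl v0 len e en e0) (fun _ => rfl) ?_
  intro g i j hi hj
  obtain ⟨w, hw⟩ : ∃ w, idx1 c0 e g.n w = ⟨i, hi⟩ := ⟨_, Equiv.apply_symm_apply _ _⟩
  obtain ⟨w', hw'⟩ : ∃ w, idx1 c0 e g.n w = ⟨j, hj⟩ := ⟨_, Equiv.apply_symm_apply _ _⟩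
  have hwi : (idx1 c0 e g.n w : ℕ) = i := by rw [hw]
  have hwj : (idx1 c0 e g.n w' : ℕ) = j := by rw [hw']
  have ha : ∀ p t, w = Sum.inr (p, t) → jA c0 e i = (p : ℕ) := by
    intro p t hp
    rw [← hwi, hp, jA_idx1_inr]
  have ha' : ∀ p t, w' = Sum.inr (p, t) → jA c0 e j = (p : ℕ) := by
    intro p t hp
    rw [← hwj, hp, jA_idx1_inr]
  have ht1 : TableRAux.tg c0 e (iT c0 e i) = some (TableRAux.tgI w) := by
    rw [← hwi, TableRAux.tg_idx]
  have ht2 : TableRAux.tg c0 e (iT c0 e j) = some (TableRAux.tgI w') := by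
    rw [← hwj, TableRAux.tg_idx]
  rw [Bool.eq_iff_iff]
  have h1 := adjN_fin (redR H par ht cl v0 len e en e0 g) ⟨i, hi⟩ ⟨j, hj⟩
  simp only at h1
  rw [h1]
  unfold tabG TableRAux.tab
  rw [ht1, ht2]
  simp only [decide_eq_true_eq]
  rw [← TableRAux.ne_iff w w' _ _ ha ha']
  by_cases h : n0 ≤ g.n
  · refine (TableRAux.redR_adj H par cl v0 len e en e0 g h ⟨i, hi⟩ ⟨j, hj⟩).trans ?_
    have e1 : (idx1 c0 e g.n).symm ⟨i, hi⟩ = w := by rw [← hw, Equiv.symm_apply_apply]
    have e2 : (idx1 c0 e g.n).symm ⟨j, hj⟩ = w' := by rw [← hw', Equiv.symm_apply_apply]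
    rw [e1, e2]
    unfold gr
    rw [SimpleGraph.fromRel_adj]
    rw [TableRAux.rel_iff H par cl v0 len en e0 g h w w' _ _ ha ha',
      TableRAux.rel_iff H par cl v0 len en e0 g h w' w _ _ ha' ha]
    rw [TableRAux.adjN_symm g (jA c0 e j) (jA c0 e i)]
    have e3 : (decide (jA c0 e j = jA c0 e i)) = decide (jA c0 e i = jA c0 e j) := by
      rw [decide_eq_decide]; exact eq_comm
    rw [e3]
    refine and_congr ?_ ?_
    · rw [ne_eq, EmbeddingLike.apply_eq_iff_eq]
    · constructor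
      · intro hh _; exact hh
      · intro hh; exact hh h
  · rw [TableRAux.redR_G' H par cl v0 len e en e0 g h]
    have e4 : ((⟨i, hi⟩ : Fin (c0 + g.n * e)) ≠ ⟨j, hj⟩) ↔ w ≠ w' := by
      rw [← hw, ← hw', ne_eq, EmbeddingLike.apply_eq_iff_eq]
    refine (SimpleGraph.top_adj _ _).trans ?_
    constructor
    · intro hh
      exact ⟨e4.1 hh, fun h2 => absurd h2 h⟩
    · intro hh
      exact e4.2 hh.1

theorem surj_redR (H : V → V → Prop) (par : V → V) (cl : V → Bool) (v0 : Core ht)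
    (len : Bool → ℕ) (e : ℕ) (en : Fin n0 ≃ Core ht) (e0 : Fin c0 ≃ {x : V // 0 < ht x}) (g : Gr)
    (h : n0 ≤ g.n) :
    SurjHom (redR H par ht cl v0 len e en e0 g).G H ↔
      SurjHom (gr H par ht len e (fun a b : Fin g.n => g.G.Adj a b) (fun a => col cl en a)
        (emb en h) (emb en h v0)) H := by
  rw [TableRAux.redR_G H par cl v0 len e en e0 g h]
  set E := (idx1 c0 e g.n).symm.trans (Equiv.sumCongr e0 (Equiv.refl (Fin g.n × Fin e))) with hE
  constructor
  · rintro ⟨f, h1, h2⟩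
    refine ⟨fun w => f (E.symm w), fun a b hab => h1 _ _ ?_, h2.comp E.symm.surjective⟩
    rw [SimpleGraph.comap_adj, Equiv.apply_symm_apply, Equiv.apply_symm_apply]
    exact hab
  · rintro ⟨f, h1, h2⟩
    exact ⟨fun w => f (E w), fun a b hab => h1 _ _ hab, h2.comp E.surjective⟩

theorem not_surj (H : V → V → Prop) (par : V → V) (cl : V → Bool) (v0 : Core ht)
    (len : Bool → ℕ) (e : ℕ) (en : Fin n0 ≃ Core ht) (e0 : Fin c0 ≃ {x : V // 0 < ht x}) (g : Gr)
    (hcls : ∀ a b, H a b → cl a ≠ cl b) (hc0 : 3 ≤ c0) (h : ¬ n0 ≤ g.n) :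
    ¬ SurjHom (redR H par ht cl v0 len e en e0 g).G H := by
  rw [TableRAux.redR_G' H par cl v0 len e en e0 g h]
  rintro ⟨f, h1, -⟩
  have hn : (redR H par ht cl v0 len e en e0 g).n = c0 + g.n * e := rfl
  have l0 : 0 < (redR H par ht cl v0 len e en e0 g).n := by rw [hn]; omega
  have l1 : 1 < (redR H par ht cl v0 len e en e0 g).n := by rw [hn]; omega
  have l2 : 2 < (redR H par ht cl v0 len e en e0 g).n := by rw [hn]; omega
  have a1 := hcls _ _ (h1 ⟨0, l0⟩ ⟨1, l1⟩ (by simp))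
  have a2 := hcls _ _ (h1 ⟨1, l1⟩ ⟨2, l2⟩ (by simp))
  have a3 := hcls _ _ (h1 ⟨0, l0⟩ ⟨2, l2⟩ (by simp))
  revert a1 a2 a3
  generalize cl (f ⟨0, l0⟩) = x
  generalize cl (f ⟨1, l1⟩) = y
  generalize cl (f ⟨2, l2⟩) = z
  cases x <;> cases y <;> cases z <;> simp

end Pool.Agent.Lib.P2baR
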